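import Pool.Agent.Lib_helper73.QH.Main

/-!
# Simple zeros up to height `T` of the Hecke L-functions of a quadratic field

Let `K` be a quadratic field and `B > 0`.  For an ideal `𝔮` of the ring of integers `Fam 𝔮 B` is
the family of ALL Hecke characters of `K` of conductor exactly `𝔮` whose infinity type is bounded
by `B`; their L-functions have degree `2` over the rationals (those of the characters that are not
fixed by the Galois conjugation, for instance of all characters of conductor `𝔮` if `𝔮` is not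
fixed, are primitive; this remark is not part of the theorem).

There is a function `T₁` with `T₁ n → ∞` as `n → ∞` such that for every ideal `𝔮` and every `T` with
`1 ≤ T ≤ T₁ (N𝔮)`:

* at least one third of the `ψ` in `Fam 𝔮 B` have at least `(1/100) · T (log N𝔮) / (2π)` simple zeros
  `1/2 + it`, `0 < t ≤ T`;
* in total, the `Λ(s, ψ)` have at least `0.35 · |Fam 𝔮 B| · T (log N𝔮) / (2π)` such simple zeros;
* in total, they have at most `1.01 · |Fam 𝔮 B| · T (log N𝔮) / (2π)` zeros `ρ`, `0 < Im ρ ≤ T`,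
  counted with multiplicity.

The proof: Levinson's method for families (`Pool.Agent.LVK`, by helper42, helper92 and helper39) for
the windows `0 < t < j/200`, an upper bound for the number of ALL zeros over ARBITRARY subfamilies
(`per_sub`, `per_good`: the mean square bounds of the method are inherited by subfamilies of positive
proportion), which prevents that few members of the family have almost all simple zeros, and a
diagonal argument in `j`.

The definitions `HDat`, `Fam` are in `Pool/Agent/Lib_helper42/LVK/Defs.lean`; `psiInf`, `IsPrim`,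
`IsHecke`, `gam`, `IsCompleted` in `Pool/Agent/Lib_helper41/HZF/Defs.lean`; `nSimple`, `nAll` in
`Pool/Agent/Lib_helper73/QH/Main.lean`.
-/

namespace Pool.Agent.Results.MP_8ad8be_nt.QuadraticHecke

open NumberField Complex Filter Pool.Agent.HZ Pool.Agent.LVK Pool.Agent.QH

theorem result (K : Type) [Field K] [NumberField K] (_hK : Module.finrank ℚ K = 2) {B : ℝ}
    (hB : 0 < B) :
    ∃ T₁ : ℕ → ℝ, Tendsto T₁ atTop atTop ∧ ∀ (𝔮 : Ideal (𝓞 K)) (T : ℝ), 1 ≤ T →
      T ≤ T₁ (Ideal.absNorm 𝔮) →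
      (Fam 𝔮 B).Finite ∧ ((∃ χ, IsPrim 𝔮 χ) → (Fam 𝔮 B).Nonempty) ∧
      (∀ t ∈ Fam 𝔮 B, ∃ Λ, IsCompleted t.κ t.lam t.ψ Λ) ∧
      ∀ Λ : HDat 𝔮 → ℂ → ℂ, (∀ t ∈ Fam 𝔮 B, IsCompleted t.κ t.lam t.ψ (Λ t)) →
        ((Fam 𝔮 B).ncard : ℝ) / 3 ≤ ({t ∈ Fam 𝔮 B | ENNReal.ofReal (1 / 100 *
          (T * (Real.log (Ideal.absNorm 𝔮) / (2 * Real.pi)))) ≤ nSimple (Λ t) T}.ncard : ℝ) ∧
        ENNReal.ofReal (35 / 100 * ((Fam 𝔮 B).ncard *
          (T * (Real.log (Ideal.absNorm 𝔮) / (2 * Real.pi))))) ≤
          ∑' t : Fam 𝔮 B, nSimple (Λ t) T ∧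
        ∑' t : Fam 𝔮 B, nAll (Λ t) T ≤ ENNReal.ofReal (101 / 100 * ((Fam 𝔮 B).ncard *
          (T * (Real.log (Ideal.absNorm 𝔮) / (2 * Real.pi))))) :=
  main_T K hB

end Pool.Agent.Results.MP_8ad8be_nt.QuadraticHecke
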